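import Mathlib
import Pool.Agent.Y184.SP.Base

/-!
# The Green function of `ℂ / ℤ[i]` by the theta product (part `G` of the project MP_4ff127_gt)
-/

set_option autoImplicit false

open Set Topology Filter Complex
open scoped ContDiff

namespace Pool.Agent.Run7.h398.SP.G

open Pool.Agent.Y184.SP

/-- the nome -/
noncomputable def p : ℝ := Real.exp (-(2 * Real.pi))

lemma p_pos : 0 < p := Real.exp_pos _

lemma p_lt : p < 1 := by
  unfold p
  rw [Real.exp_lt_one_iff]
  have := Real.pi_pos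
  linarith

lemma ofReal_p : ((p : ℝ) : ℂ) = Complex.exp (-(2 * Real.pi)) := by
  unfold p
  push_cast
  rfl

/-- the product -/
noncomputable def P (w : ℂ) : ℂ := ∏' n : ℕ, (1 + -((p : ℂ) ^ n * w))

lemma summ (w : ℂ) : Summable fun n : ℕ => ‖-((p : ℂ) ^ n * w)‖ := by
  have h : (fun n : ℕ => ‖-((p : ℂ) ^ n * w)‖) = fun n : ℕ => p ^ n * ‖w‖ := by
    funext n
    rw [norm_neg, norm_mul, norm_pow, Complex.norm_real, Real.norm_of_nonneg p_pos.le]
  rw [h]
  exact (summable_geometric_of_lt_one p_pos.le p_lt).mul_right _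

lemma mult (w : ℂ) : Multipliable fun n : ℕ => (1 + -((p : ℂ) ^ n * w)) :=
  multipliable_one_add_of_summable (summ w)

lemma P_diff : Differentiable ℂ P := by
  intro w
  have h : HasProdLocallyUniformlyOn (fun (n : ℕ) (x : ℂ) => 1 + -((p : ℂ) ^ n * x))
      (fun x => ∏' n : ℕ, (1 + -((p : ℂ) ^ n * x))) (Metric.ball (0 : ℂ) (‖w‖ + 1)) := by
    refine Summable.hasProdLocallyUniformlyOn_nat_one_add Metric.isOpen_ball
      (u := fun n => p ^ n * (‖w‖ + 1)) ?_ ?_ ?_
    · exact (summable_geometric_of_lt_one p_pos.le p_lt).mul_right _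
    · refine Eventually.of_forall fun n x hx => ?_
      rw [norm_neg, norm_mul, norm_pow, Complex.norm_real, Real.norm_of_nonneg p_pos.le]
      have : ‖x‖ ≤ ‖w‖ + 1 := by
        rw [mem_ball_zero_iff] at hx
        exact hx.le
      exact mul_le_mul_of_nonneg_left this (pow_nonneg p_pos.le _)
    · intro n
      fun_prop
  have h2 : DifferentiableOn ℂ P (Metric.ball (0 : ℂ) (‖w‖ + 1)) :=
    h.differentiableOn
      (.of_forall fun _ => by
        simpa [Finset.prod_fn] using DifferentiableOn.finsetProd (fun _ _ => by fun_prop))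
      Metric.isOpen_ball
  refine h2.differentiableAt (Metric.isOpen_ball.mem_nhds ?_)
  rw [mem_ball_zero_iff]
  linarith

lemma P_step (w : ℂ) : P w = (1 - w) * P (p * w) := by
  unfold P
  rw [tprod_eq_zero_mul' ?_]
  · congr 1
    · simp [sub_eq_add_neg]
    · refine tprod_congr fun n => ?_
      rw [pow_succ]
      ring
  · refine (mult (p * w)).congr fun n => ?_
    rw [pow_succ]
    ring

lemma P_ne (w : ℂ) (h : ∀ n : ℕ, (p : ℂ) ^ n * w ≠ 1) : P w ≠ 0 := by
  refine tprod_one_add_ne_zero_of_summable (fun n h0 => h n ?_) (summ w)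
  linear_combination -h0

/-- the exponential -/
noncomputable def q (x : ℂ) : ℂ := Complex.exp (2 * Real.pi * Complex.I * x)

lemma q_ne (x : ℂ) : q x ≠ 0 := Complex.exp_ne_zero _

lemma q_diff : Differentiable ℂ q := by
  unfold q
  fun_prop

lemma pq (n : ℤ) (x : ℂ) : (p : ℂ) ^ n * q x = q (x + n * Complex.I) := by
  unfold q
  rw [ofReal_p, ← Complex.exp_int_mul, ← Complex.exp_add]
  congr 1
  linear_combination (-(2 * Real.pi * (n : ℂ))) * Complex.I_sq

lemma q_eq_one (x : ℂ) (h : q x = 1) : ∃ m : ℤ, x = m := by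
  unfold q at h
  rw [Complex.exp_eq_one_iff] at h
  obtain ⟨m, hm⟩ := h
  refine ⟨m, ?_⟩
  have h2 : (2 * Real.pi * Complex.I : ℂ) ≠ 0 := by
    simp [Real.pi_ne_zero]
  have : (2 * Real.pi * Complex.I : ℂ) * x = (2 * Real.pi * Complex.I) * m := by
    rw [hm]; ring
  exact mul_left_cancel₀ h2 this

lemma q_int (m : ℤ) : q m = 1 := by
  unfold q
  rw [Complex.exp_eq_one_iff]
  exact ⟨m, by ring⟩

lemma q_add (x y : ℂ) : q (x + y) = q x * q y := by
  unfold q
  rw [← Complex.exp_add]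
  congr 1
  ring

lemma q_neg (x : ℂ) : q (-x) = (q x)⁻¹ := by
  unfold q
  rw [← Complex.exp_neg]
  congr 1
  ring

/-- no zero of `P ∘ q` outside the lattice, and with a lower bound for the imaginary part -/
lemma Pq_ne (x : ℂ) (h : ∀ (n : ℕ) (m : ℤ), x ≠ m - n * Complex.I) : P (q x) ≠ 0 := by
  refine P_ne _ fun n hn => ?_
  have h1 : (p : ℂ) ^ n * q x = q (x + n * Complex.I) := by
    have := pq (n : ℤ) x
    rw [zpow_natCast] at this
    simpa using this
  rw [h1] at hn
  obtain ⟨m, hm⟩ := q_eq_one _ hn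
  exact h n m (by linear_combination hm)

lemma pq_one (x : ℂ) : (p : ℂ) * q x = q (x + Complex.I) := by
  have := pq 1 x
  simpa using this

/-- the two products -/
noncomputable def A (x : ℂ) : ℂ := P (q x)

/-- the two products -/
noncomputable def B (x : ℂ) : ℂ := P (q (Complex.I - x))

/-- the reduced first product -/
noncomputable def A' (x : ℂ) : ℂ := P (q (x + Complex.I))

lemma A_diff : Differentiable ℂ A := P_diff.comp q_diff

lemma B_diff : Differentiable ℂ B := P_diff.comp (q_diff.comp (by fun_prop))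

lemma A'_diff : Differentiable ℂ A' := P_diff.comp (q_diff.comp (by fun_prop))

lemma A_eq (x : ℂ) : A x = (1 - q x) * A' x := by
  unfold A A'
  rw [P_step, pq_one]

lemma A_ne (x : ℂ) (hx : x ∉ Lam) : A x ≠ 0 := by
  refine Pq_ne _ fun n m h => hx ⟨m, -n, ?_⟩
  rw [h]; push_cast; ring

lemma B_ne (x : ℂ) (hx : x ∉ Lam) : B x ≠ 0 := by
  refine Pq_ne _ fun n m h => hx ⟨-m, n + 1, ?_⟩
  push_cast
  linear_combination -h

lemma A'_ne (x : ℂ) (hx : ‖x‖ < 1 / 2) : A' x ≠ 0 := by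
  refine Pq_ne _ fun n m h => ?_
  have h2 : x.im = -(n : ℝ) - 1 := by
    have h3 := congrArg Complex.im h
    simp at h3
    linarith
  have h4 := Complex.abs_im_le_norm x
  rw [h2, abs_le] at h4
  have : (0 : ℝ) ≤ n := Nat.cast_nonneg _
  linarith [h4.1]

lemma B_ne' (x : ℂ) (hx : ‖x‖ < 1 / 2) : B x ≠ 0 := by
  refine Pq_ne _ fun n m h => ?_
  have h2 : x.im = (n : ℝ) + 1 := by
    have h3 := congrArg Complex.im h
    simp at h3
    linarith
  have h4 := Complex.abs_im_le_norm x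
  rw [h2, abs_le] at h4
  have : (0 : ℝ) ≤ n := Nat.cast_nonneg _
  linarith [h4.2]

/-- the quotient `(1 - q x) / x` -/
noncomputable def k : ℂ → ℂ := dslope (fun x => 1 - q x) 0

lemma k_diff : Differentiable ℂ k := by
  have h : DifferentiableOn ℂ k univ := by
    unfold k
    rw [Complex.differentiableOn_dslope Filter.univ_mem]
    have := q_diff
    exact (by fun_prop : Differentiable ℂ fun x => 1 - q x).differentiableOn
  exact differentiableOn_univ.1 h

lemma k_mul (x : ℂ) : x * k x = 1 - q x := by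
  have := sub_smul_dslope (fun x => 1 - q x) 0 x
  have h0 : q 0 = 1 := by simpa using q_int 0
  simpa [k, h0] using this

lemma k_ne (x : ℂ) (hx : ‖x‖ < 1 / 2) : k x ≠ 0 := by
  intro h
  by_cases hx0 : x = 0
  · subst hx0
    unfold k at h
    rw [dslope_same] at h
    have h1 : HasDerivAt (fun x => 1 - q x) (-(2 * Real.pi * Complex.I)) 0 := by
      have h2 : HasDerivAt q (2 * Real.pi * Complex.I) 0 := by
        unfold q
        have := (((hasDerivAt_id (0 : ℂ)).const_mul (2 * Real.pi * Complex.I : ℂ)).cexp)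
        simpa using this
      exact h2.const_sub 1
    rw [h1.deriv] at h
    simp [Real.pi_ne_zero] at h
  · have h1 := k_mul x
    rw [h, mul_zero] at h1
    obtain ⟨m, hm⟩ := q_eq_one x (by linear_combination h1)
    rw [hm] at hx
    rw [Complex.norm_intCast] at hx
    have hm0 : m ≠ 0 := by
      rintro rfl
      exact hx0 (by simpa using hm)
    have h5 : (1 : ℝ) ≤ |(m : ℝ)| := by
      rw [← Int.cast_abs]
      exact_mod_cast Int.one_le_abs hm0
    linarith

/-- the quadratic part -/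
noncomputable def Q (x : ℂ) : ℝ := -(2 * Real.pi) * x.im ^ 2 + 2 * Real.pi * x.im

/-- the logarithmic part outside the lattice -/
noncomputable def G0 (x : ℂ) : ℝ := 2 * Real.log ‖A x‖ + 2 * Real.log ‖B x‖ + Q x

open Classical in
/-- the Green function -/
noncomputable def G (x : ℂ) : ℝ := if x ∈ Lam then 0 else G0 x

/-- the smooth part -/
noncomputable def h (x : ℂ) : ℝ :=
  2 * Real.log ‖k x‖ + 2 * Real.log ‖A' x‖ + 2 * Real.log ‖B x‖ + Q x

lemma Lam_add {x l : ℂ} (hl : l ∈ Lam) : x + l ∈ Lam ↔ x ∈ Lam := by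
  obtain ⟨m, n, rfl⟩ := hl
  constructor
  · rintro ⟨a, b, h⟩
    exact ⟨a - m, b - n, by push_cast; linear_combination h⟩
  · rintro ⟨a, b, rfl⟩
    exact ⟨a + m, b + n, by push_cast; ring⟩

lemma Lam_zero : (0 : ℂ) ∈ Lam := ⟨0, 0, by simp⟩

lemma zero_of_norm_lt {x : ℂ} (hx : x ∈ Lam) (h : ‖x‖ < 1 / 2) : x = 0 := by
  obtain ⟨m, n, rfl⟩ := hx
  have h1 := Complex.abs_re_le_norm (m + n * Complex.I)
  have h2 := Complex.abs_im_le_norm (m + n * Complex.I)
  simp at h1 h2
  have hm : m = 0 := by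
    by_contra hm
    have h5 : (1 : ℝ) ≤ |(m : ℝ)| := by
      rw [← Int.cast_abs]
      exact_mod_cast Int.one_le_abs hm
    linarith
  have hn : n = 0 := by
    by_contra hm
    have h5 : (1 : ℝ) ≤ |(n : ℝ)| := by
      rw [← Int.cast_abs]
      exact_mod_cast Int.one_le_abs hm
    linarith
  simp [hm, hn]

/-- the lattice is closed: its complement is open -/
lemma Lam_closed : IsClosed Lam := by
  rw [← isOpen_compl_iff, Metric.isOpen_iff]
  intro x hx
  -- the distances to the lattice points near `x`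
  by_contra hcon
  push Not at hcon
  have hsub : ∀ ε : ℝ, 0 < ε → ∃ l ∈ Lam, ‖l - x‖ < ε := by
    intro ε hε
    have := hcon ε hε
    rw [Set.not_subset] at this
    obtain ⟨l, hl, hl2⟩ := this
    refine ⟨l, not_not.1 hl2, ?_⟩
    rw [Metric.mem_ball, dist_eq_norm] at hl
    exact hl
  obtain ⟨l, hl, hlx⟩ := hsub (1 / 4) (by norm_num)
  have hne : l ≠ x := by
    rintro rfl
    exact hx hl
  have hpos : 0 < ‖l - x‖ := norm_pos_iff.2 (sub_ne_zero.2 hne)
  obtain ⟨l', hl', hlx'⟩ := hsub ‖l - x‖ hpos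
  have h1 : l' - l ∈ Lam := by
    obtain ⟨a, b, rfl⟩ := hl
    obtain ⟨c, d, rfl⟩ := hl'
    exact ⟨c - a, d - b, by push_cast; ring⟩
  have h2 : ‖l' - l‖ < 1 / 2 := by
    calc ‖l' - l‖ = ‖(l' - x) - (l - x)‖ := by congr 1; ring
      _ ≤ ‖l' - x‖ + ‖l - x‖ := norm_sub_le _ _
      _ < 1 / 2 := by linarith
  have h3 := zero_of_norm_lt h1 h2
  rw [sub_eq_zero] at h3
  rw [h3] at hlx'
  exact lt_irrefl _ hlx'

lemma G_eq_nhds (x : ℂ) (hx : x ∉ Lam) : G =ᶠ[𝓝 x] G0 := by
  filter_upwards [Lam_closed.isOpen_compl.mem_nhds hx] with y hy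
  unfold G
  rw [if_neg hy]

lemma smooth_log {f : ℂ → ℂ} (hf : Differentiable ℂ f) {x : ℂ} (hx : f x ≠ 0) :
    ContDiffAt ℝ ∞ (fun y => Real.log ‖f y‖) x := by
  have h1 : ContDiff ℂ ∞ f := hf.contDiff
  have h2 : ContDiffAt ℝ ∞ f x := (h1.restrict_scalars ℝ).contDiffAt
  exact (h2.norm ℝ hx).log (norm_ne_zero_iff.2 hx)

lemma lap_log {f : ℂ → ℂ} (hf : Differentiable ℂ f) {x : ℂ} (hx : f x ≠ 0) :
    Laplacian.laplacian (fun y => Real.log ‖f y‖) x = 0 := by
  have h1 : AnalyticAt ℂ f x := hf.analyticAt x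
  have h2 := (h1.harmonicAt_log_norm hx).2
  exact h2.self_of_nhds

lemma Q_smooth : ContDiff ℝ ∞ Q := by
  unfold Q
  have : ContDiff ℝ ∞ (fun x : ℂ => x.im) := Complex.imCLM.contDiff
  fun_prop

lemma Q_fderiv (x : ℂ) :
    fderiv ℝ Q x = (-(4 * Real.pi) * x.im + 2 * Real.pi) • Complex.imCLM := by
  have h1 : HasFDerivAt (fun x : ℂ => x.im) Complex.imCLM x := Complex.imCLM.hasFDerivAt
  have h2 := ((h1.pow 2).const_mul (-(2 * Real.pi))).add (h1.const_mul (2 * Real.pi))
  have h3 : HasFDerivAt Q _ x := h2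
  rw [h3.fderiv]
  ext v <;> simp <;> ring

lemma Q_lap (x : ℂ) : Laplacian.laplacian Q x = -(4 * Real.pi) := by
  have h0 := congrFun (InnerProductSpace.laplacian_eq_iteratedFDeriv_complexPlane Q) x
  rw [h0]
  rw [iteratedFDeriv_two_apply, iteratedFDeriv_two_apply]
  have h1 : fderiv ℝ Q = fun x => (-(4 * Real.pi) * x.im + 2 * Real.pi) • Complex.imCLM := by
    funext x
    exact Q_fderiv x
  have h2 : HasFDerivAt (fun x : ℂ => x.im) Complex.imCLM x := Complex.imCLM.hasFDerivAt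
  have h3 := (((h2.const_mul (-(4 * Real.pi))).add_const (2 * Real.pi)).smul_const Complex.imCLM)
  rw [h1, h3.fderiv]
  simp

lemma two_le : (2 : WithTop ℕ∞) ≤ ∞ := WithTop.coe_le_coe.2 le_top

lemma G0_lap (x : ℂ) (hx : x ∉ Lam) : Laplacian.laplacian G0 x = -(4 * Real.pi) := by
  have hA := (smooth_log A_diff (A_ne x hx))
  have hB := (smooth_log B_diff (B_ne x hx))
  have hA2 : ContDiffAt ℝ 2 (fun y => Real.log ‖A y‖) x := hA.of_le two_le
  have hB2 : ContDiffAt ℝ 2 (fun y => Real.log ‖B y‖) x := hB.of_le two_le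
  have hQ2 : ContDiffAt ℝ 2 Q x := (Q_smooth.of_le two_le).contDiffAt
  have hfun : G0 = ((2 : ℝ) • (fun y => Real.log ‖A y‖) + (2 : ℝ) • (fun y => Real.log ‖B y‖))
      + Q := by
    funext y
    simp [G0]
  have e1 : ContDiffAt ℝ 2 ((2 : ℝ) • (fun y => Real.log ‖A y‖)) x := hA2.const_smul (2 : ℝ)
  have e2 : ContDiffAt ℝ 2 ((2 : ℝ) • (fun y => Real.log ‖B y‖)) x := hB2.const_smul (2 : ℝ)
  have e3 : ContDiffAt ℝ 2 ((2 : ℝ) • (fun y => Real.log ‖A y‖) +
      (2 : ℝ) • (fun y => Real.log ‖B y‖)) x := e1.add e2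
  rw [hfun]
  rw [ContDiffAt.laplacian_add e3 hQ2, ContDiffAt.laplacian_add e1 e2,
    InnerProductSpace.laplacian_smul (2 : ℝ) hA2, InnerProductSpace.laplacian_smul (2 : ℝ) hB2,
    lap_log A_diff (A_ne x hx), lap_log B_diff (B_ne x hx), Q_lap]
  simp

lemma G0_add_one (x : ℂ) : G0 (x + 1) = G0 x := by
  have h1 : q (x + 1) = q x := by
    rw [q_add]
    have := q_int 1
    rw [Int.cast_one] at this
    rw [this, mul_one]
  have h2 : q (Complex.I - (x + 1)) = q (Complex.I - x) := by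
    have h3 : Complex.I - (x + 1) = (Complex.I - x) + ((-1 : ℤ) : ℂ) := by push_cast; ring
    rw [h3, q_add, q_int, mul_one]
  unfold G0 A B Q
  rw [h1, h2]
  simp

lemma norm_q (x : ℂ) : ‖q x‖ = Real.exp (-(2 * Real.pi * x.im)) := by
  unfold q
  rw [Complex.norm_exp]
  congr 1
  simp

lemma G0_add_I (x : ℂ) (hx : x ∉ Lam) : G0 (x + Complex.I) = G0 x := by
  have hq1 : 1 - q x ≠ 0 := by
    intro h0
    obtain ⟨m, hm⟩ := q_eq_one x (by linear_combination -h0)
    exact hx ⟨m, 0, by simp [hm]⟩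
  have hA : A x = (1 - q x) * A (x + Complex.I) := by
    rw [A_eq]
    rfl
  -- `B (x + I) = (1 - 1 / q x) * B x`
  have hB : B (x + Complex.I) = (1 - (q x)⁻¹) * B x := by
    unfold B
    have h3 : Complex.I - (x + Complex.I) = -x := by ring
    rw [h3, P_step, pq_one, q_neg]
    congr 3
    ring
  have hAI : A (x + Complex.I) ≠ 0 := by
    intro h0
    rw [h0, mul_zero] at hA
    exact A_ne x hx hA
  have hB0 : B x ≠ 0 := B_ne x hx
  have h5 : (1 - (q x)⁻¹) = -(1 - q x) / q x := by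
    field_simp [q_ne x]
    ring
  have h6 : Real.log ‖B (x + Complex.I)‖ =
      Real.log ‖1 - q x‖ + 2 * Real.pi * x.im + Real.log ‖B x‖ := by
    rw [hB, h5, norm_mul, norm_div, norm_neg, norm_q,
      Real.log_mul (div_ne_zero (norm_ne_zero_iff.2 hq1) (Real.exp_ne_zero _))
        (norm_ne_zero_iff.2 hB0),
      Real.log_div (norm_ne_zero_iff.2 hq1) (Real.exp_ne_zero _), Real.log_exp]
    ring
  have h7 : Real.log ‖A x‖ = Real.log ‖1 - q x‖ + Real.log ‖A (x + Complex.I)‖ := by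
    rw [hA, norm_mul, Real.log_mul (norm_ne_zero_iff.2 hq1) (norm_ne_zero_iff.2 hAI)]
  unfold G0 Q
  rw [h6, h7]
  simp
  ring

lemma G0_add_int (x : ℂ) (m : ℤ) : G0 (x + m) = G0 x := by
  induction m using Int.induction_on with
  | zero => simp
  | succ i ih =>
    rw [← ih, ← G0_add_one (x + (i : ℤ))]
    congr 1
    push_cast
    ring
  | pred i ih =>
    rw [← ih, ← G0_add_one (x + ((-(i : ℤ) - 1 : ℤ) : ℂ))]
    congr 1
    push_cast
    ring

lemma mem_int_I (n : ℤ) : (n : ℂ) * Complex.I ∈ Lam := ⟨0, n, by simp⟩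

lemma G0_add_intI (x : ℂ) (hx : x ∉ Lam) (n : ℤ) : G0 (x + n * Complex.I) = G0 x := by
  induction n using Int.induction_on with
  | zero => simp
  | succ i ih =>
    rw [← ih, ← G0_add_I (x + (i : ℤ) * Complex.I) (by rwa [Lam_add (mem_int_I _)])]
    congr 1
    push_cast
    ring
  | pred i ih =>
    rw [← ih, ← G0_add_I (x + ((-(i : ℤ) - 1 : ℤ) : ℂ) * Complex.I)
      (by rwa [Lam_add (mem_int_I _)])]
    congr 1
    push_cast
    ring

lemma G_per (x l : ℂ) (hl : l ∈ Lam) : G (x + l) = G x := by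
  by_cases hx : x ∈ Lam
  · unfold G
    rw [if_pos hx, if_pos ((Lam_add hl).2 hx)]
  · unfold G
    rw [if_neg hx, if_neg (fun h => hx ((Lam_add hl).1 h))]
    obtain ⟨m, n, rfl⟩ := hl
    rw [← G0_add_intI x hx n, ← G0_add_int (x + n * Complex.I) m]
    congr 1
    ring

theorem main : StG := by
  refine ⟨G, h, 4 * Real.pi, ⟨by positivity, G_per, ?_, ?_, ?_, ?_⟩⟩
  · intro x hx
    refine ContDiffAt.congr_of_eventuallyEq ?_ (G_eq_nhds x hx)
    have hA := (smooth_log A_diff (A_ne x hx))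
    have hB := (smooth_log B_diff (B_ne x hx))
    exact ((contDiffAt_const.mul hA).add (contDiffAt_const.mul hB)).add Q_smooth.contDiffAt
  · intro x hx
    rw [(InnerProductSpace.laplacian_congr_nhds (G_eq_nhds x hx)).self_of_nhds]
    exact G0_lap x hx
  · intro x hx
    have h1 := smooth_log k_diff (k_ne x hx)
    have h2 := smooth_log A'_diff (A'_ne x hx)
    have h3 := smooth_log B_diff (B_ne' x hx)
    exact (((contDiffAt_const.mul h1).add (contDiffAt_const.mul h2)).add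
      (contDiffAt_const.mul h3)).add Q_smooth.contDiffAt
  · intro x hx hx0
    have hL : x ∉ Lam := fun hL => hx0 (zero_of_norm_lt hL hx)
    unfold G G0 h
    rw [if_neg hL, A_eq, ← k_mul, norm_mul, norm_mul,
      Real.log_mul (mul_ne_zero (norm_ne_zero_iff.2 hx0) (norm_ne_zero_iff.2 (k_ne x hx)))
        (norm_ne_zero_iff.2 (A'_ne x hx)),
      Real.log_mul (norm_ne_zero_iff.2 hx0) (norm_ne_zero_iff.2 (k_ne x hx)), Real.log_pow]
    push_cast
    ring

end Pool.Agent.Run7.h398.SP.G
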